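import Pool.Agent.Lib.MP_b18e8e_lc_PFA.Defs

/-!
# Closure of countable sets and properness
-/

set_option autoImplicit false

namespace Pool.Agent.Lib.MP_b18e8e_lc_PFA

open Cardinal

/-- closure of a set under a set-valued operation on lists. -/
inductive Cl {A : Type} (C : List A → Set A) (S : Set A) : A → Prop
  | base (x : A) : x ∈ S → Cl C S x
  | step (l : List A) (y : A) : (∀ x ∈ l, Cl C S x) → y ∈ C l → Cl C S y

/-- finite stages of the closure -/
def stage {A : Type} (C : List A → Set A) (S : Set A) : ℕ → Set A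
  | 0 => S
  | n + 1 => stage C S n ∪ ⋃ l ∈ {l : List A | ∀ x ∈ l, x ∈ stage C S n}, C l

theorem stage_mono {A : Type} (C : List A → Set A) (S : Set A) {m n : ℕ} (h : m ≤ n) :
    stage C S m ⊆ stage C S n := by
  induction h with
  | refl => exact subset_rfl
  | step _ ih => exact ih.trans Set.subset_union_left

theorem countable_lists {A : Type} {S : Set A} (hS : S.Countable) :
    {l : List A | ∀ x ∈ l, x ∈ S}.Countable := by
  have := hS.to_subtype
  have h : {l : List A | ∀ x ∈ l, x ∈ S} = Set.range (List.map (Subtype.val : S → A)) := by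
    ext l
    constructor
    · intro h
      exact ⟨l.attachWith _ h, by simp⟩
    · rintro ⟨l', rfl⟩ x hx
      simp only [List.mem_map] at hx
      obtain ⟨y, _, rfl⟩ := hx
      exact y.2
  rw [h]
  exact Set.countable_range _

theorem stage_countable {A : Type} (C : List A → Set A) (hC : ∀ l, (C l).Countable)
    (S : Set A) (hS : S.Countable) (n : ℕ) : (stage C S n).Countable := by
  induction n with
  | zero => exact hS
  | succ n ih =>
    exact ih.union (Set.Countable.biUnion (countable_lists ih) fun l _ => hC l)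

theorem cl_eq {A : Type} (C : List A → Set A) (S : Set A) :
    {x | Cl C S x} = ⋃ n, stage C S n := by
  ext x
  simp only [Set.mem_ofPred_eq, Set.mem_iUnion]
  constructor
  · intro h
    induction h with
    | base x hx => exact ⟨0, hx⟩
    | step l y hl hy ih =>
      have : ∃ n, ∀ x ∈ l, x ∈ stage C S n := by
        clear hy hl
        induction l with
        | nil => exact ⟨0, by simp⟩
        | cons a l ih' =>
          obtain ⟨n, hn⟩ := ih' (fun x hx => ih x (List.mem_cons_of_mem _ hx))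
          obtain ⟨m, hm⟩ := ih a List.mem_cons_self
          refine ⟨max m n, ?_⟩
          intro x hx
          rcases List.mem_cons.1 hx with rfl | hx
          · exact stage_mono C S (le_max_left _ _) hm
          · exact stage_mono C S (le_max_right _ _) (hn x hx)
      obtain ⟨n, hn⟩ := this
      refine ⟨n + 1, Or.inr ?_⟩
      simp only [Set.mem_iUnion]
      exact ⟨l, hn, hy⟩
  · rintro ⟨n, hn⟩
    induction n generalizing x with
    | zero => exact Cl.base x hn
    | succ n ih =>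
      rcases hn with hn | hn
      · exact ih x hn
      · simp only [Set.mem_iUnion] at hn
        obtain ⟨l, hl, hx⟩ := hn
        exact Cl.step l x (fun y hy => ih y (hl y hy)) hx

theorem cl_countable {A : Type} (C : List A → Set A) (hC : ∀ l, (C l).Countable)
    (S : Set A) (hS : S.Countable) : {x | Cl C S x}.Countable := by
  rw [cl_eq]
  exact Set.countable_iUnion (stage_countable C hC S hS)

theorem cl_mono {A : Type} (C : List A → Set A) {S T : Set A} (h : S ⊆ T) (x : A)
    (hx : Cl C S x) : Cl C T x := by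
  induction hx with
  | base x hx => exact Cl.base x (h hx)
  | step l y _ hy ih => exact Cl.step l y ih hy

/-- Properness may be checked with an auxiliary type and countable-set-valued operations. -/
theorem proper_of_big {P B : Type} [Preorder P]
    (C : List ((P ⊕ Set P) ⊕ B) → Set ((P ⊕ Set P) ⊕ B)) (hC : ∀ l, (C l).Countable)
    (h : ∀ M : Set ((P ⊕ Set P) ⊕ B), M.Countable → (∀ l, (∀ x ∈ l, x ∈ M) → C l ⊆ M) →
      ∀ p : P, Sum.inl (Sum.inl p) ∈ M → ∃ q ≤ p, ∀ D : Set P, Sum.inl (Sum.inr D) ∈ M →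
        IsDenseSet D → PredenseBelow {d | d ∈ D ∧ Sum.inl (Sum.inl d) ∈ M} q) : Proper P := by
  classical
  let A : Type := P ⊕ Set P
  let S : List A → Set (A ⊕ B) := fun l => {x | ∃ a ∈ l, x = Sum.inl a}
  have hS : ∀ l, (S l).Countable := by
    intro l
    have : S l = Sum.inl '' {a | a ∈ l} := by
      ext x
      simp only [S, Set.mem_ofPred_eq, Set.mem_image]
      exact ⟨fun ⟨a, h1, h2⟩ => ⟨a, h1, h2.symm⟩, fun ⟨a, h1, h2⟩ => ⟨a, h1, h2.symm⟩⟩
    rw [this]
    exact (List.finite_toSet l).countable.image _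
  let K : List A → Set A := fun l => insert (Sum.inr ∅) {a | Cl C (S l) (Sum.inl a)}
  have hK : ∀ l, (K l).Countable := by
    intro l
    refine Set.Countable.insert _ ?_
    exact (cl_countable C hC _ (hS l)).preimage Sum.inl_injective
  have hKne : ∀ l, (K l).Nonempty := fun l => ⟨_, Set.mem_insert _ _⟩
  have hF : ∀ l, ∃ f : ℕ → A, K l = Set.range f := fun l => (hK l).exists_eq_range (hKne l)
  choose f hf using hF
  refine ⟨fun n l => f l n, ?_⟩
  intro M hM hcl p hp
  have hclK : ∀ l, (∀ x ∈ l, x ∈ M) → K l ⊆ M := by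
    intro l hl a ha
    rw [hf] at ha
    obtain ⟨n, rfl⟩ := ha
    exact hcl n l hl
  let M' : Set (A ⊕ B) := {x | ∃ l : List A, (∀ a ∈ l, a ∈ M) ∧ Cl C (S l) x}
  have hM'c : M'.Countable := by
    have : M' = ⋃ l ∈ {l : List A | ∀ a ∈ l, a ∈ M}, {x | Cl C (S l) x} := by
      ext x
      simp only [M', Set.mem_ofPred_eq, Set.mem_iUnion, exists_prop]
      rfl
    rw [this]
    exact (countable_lists hM).biUnion fun l _ => cl_countable C hC _ (hS l)
  have hM'cl : ∀ l, (∀ x ∈ l, x ∈ M') → C l ⊆ M' := by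
    intro l hl y hy
    have : ∃ l' : List A, (∀ a ∈ l', a ∈ M) ∧ ∀ x ∈ l, Cl C (S l') x := by
      clear hy
      induction l with
      | nil => exact ⟨[], by simp, by simp⟩
      | cons a l ih =>
        obtain ⟨l₁, h1, h2⟩ := ih fun x hx => hl x (List.mem_cons_of_mem _ hx)
        obtain ⟨l₂, h3, h4⟩ := hl a List.mem_cons_self
        refine ⟨l₁ ++ l₂, ?_, ?_⟩
        · intro a ha
          rcases List.mem_append.1 ha with ha | ha
          · exact h1 a ha
          · exact h3 a ha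
        · intro x hx
          rcases List.mem_cons.1 hx with rfl | hx
          · refine cl_mono C ?_ _ h4
            rintro _ ⟨b, hb, rfl⟩
            exact ⟨b, List.mem_append_right _ hb, rfl⟩
          · refine cl_mono C ?_ _ (h2 x hx)
            rintro _ ⟨b, hb, rfl⟩
            exact ⟨b, List.mem_append_left _ hb, rfl⟩
    obtain ⟨l', h1, h2⟩ := this
    exact ⟨l', h1, Cl.step l y h2 hy⟩
  have hinl : ∀ a : A, Sum.inl a ∈ M' ↔ a ∈ M := by
    intro a
    constructor
    · rintro ⟨l, h1, h2⟩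
      exact hclK l h1 (Set.mem_insert_of_mem _ h2)
    · intro ha
      exact ⟨[a], by simpa using ha, Cl.base _ ⟨a, by simp, rfl⟩⟩
  obtain ⟨q, hq, hgen⟩ := h M' hM'c hM'cl p ((hinl _).2 hp)
  refine ⟨q, hq, ?_⟩
  intro D hD hdense
  have h1 := hgen D ((hinl _).2 hD) hdense
  have h2 : {d | d ∈ D ∧ Sum.inl (Sum.inl d) ∈ M'} = {d | d ∈ D ∧ Sum.inl d ∈ M} := by
    ext d
    simp only [Set.mem_ofPred_eq, hinl]
  rw [h2] at h1
  exact h1

/-- The part of a proper poset below a given element is proper. -/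
theorem proper_below {P : Type} [Preorder P] (hP : Proper P) (q₀ : P) :
    Proper {p : P // p ≤ q₀} := by
  classical
  obtain ⟨F, hF⟩ := hP
  let P₀ := {p : P // p ≤ q₀}
  let B := P ⊕ Set P
  let A' := (P₀ ⊕ Set P₀) ⊕ B
  let star : Set P₀ → Set P := fun D => {p | (∃ h : p ≤ q₀, (⟨p, h⟩ : P₀) ∈ D) ∨
    ¬ ∃ r, r ≤ p ∧ r ≤ q₀}
  let C : List A' → Set A' := fun l => {x |
    (∃ (n : ℕ) (l' : List B), l = l'.map Sum.inr ∧ x = Sum.inr (F n l')) ∨
    (∃ p : P₀, l = [Sum.inl (Sum.inl p)] ∧ x = Sum.inr (Sum.inl p.1)) ∨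
    (∃ D : Set P₀, l = [Sum.inl (Sum.inr D)] ∧ x = Sum.inr (Sum.inr (star D))) ∨
    (∃ p : P₀, l = [Sum.inr (Sum.inl p.1)] ∧ x = Sum.inl (Sum.inl p))}
  have hC : ∀ l, (C l).Countable := by
    intro l
    have hsub : C l ⊆ (⋃ n : ℕ, {x | ∃ l' : List B, l = l'.map Sum.inr ∧ x = Sum.inr (F n l')}) ∪
        ({x | ∃ p : P₀, l = [Sum.inl (Sum.inl p)] ∧ x = Sum.inr (Sum.inl p.1)} ∪
        ({x | ∃ D : Set P₀, l = [Sum.inl (Sum.inr D)] ∧ x = Sum.inr (Sum.inr (star D))} ∪
        {x | ∃ p : P₀, l = [Sum.inr (Sum.inl p.1)] ∧ x = Sum.inl (Sum.inl p)})) := by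
      rintro x (⟨n, l', h1, h2⟩ | h | h | h)
      · exact Or.inl (Set.mem_iUnion.2 ⟨n, l', h1, h2⟩)
      · exact Or.inr (Or.inl h)
      · exact Or.inr (Or.inr (Or.inl h))
      · exact Or.inr (Or.inr (Or.inr h))
    refine Set.Countable.mono hsub ?_
    refine (Set.countable_iUnion fun n => ?_).union (Set.Countable.union ?_
      (Set.Countable.union ?_ ?_))
    · apply Set.Subsingleton.countable
      rintro x ⟨l', h1, rfl⟩ y ⟨l'', h2, rfl⟩
      rw [h1] at h2
      rw [List.map_injective_iff.2 Sum.inr_injective h2]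
    · apply Set.Subsingleton.countable
      rintro x ⟨p, h1, rfl⟩ y ⟨p', h2, rfl⟩
      rw [h1] at h2
      simp only [List.cons.injEq, Sum.inl.injEq, and_true] at h2
      rw [h2]
    · apply Set.Subsingleton.countable
      rintro x ⟨p, h1, rfl⟩ y ⟨p', h2, rfl⟩
      rw [h1] at h2
      simp only [List.cons.injEq, Sum.inl.injEq, Sum.inr.injEq, and_true] at h2
      rw [h2]
    · apply Set.Subsingleton.countable
      rintro x ⟨p, h1, rfl⟩ y ⟨p', h2, rfl⟩
      rw [h1] at h2
      simp only [List.cons.injEq, Sum.inl.injEq, Sum.inr.injEq, and_true] at h2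
      rw [Subtype.ext h2]
  refine proper_of_big (B := B) C hC ?_
  intro M hM hcl p hp
  let N : Set B := {b | Sum.inr b ∈ M}
  have hN : N.Countable := hM.preimage Sum.inr_injective
  have hNcl : ClosedUnder F N := by
    intro n l hl
    apply hcl (l.map Sum.inr)
    · intro x hx
      obtain ⟨b, hb, rfl⟩ := List.mem_map.1 hx
      exact hl b hb
    · exact Or.inl ⟨n, l, rfl, rfl⟩
  have hpN : Sum.inl p.1 ∈ N := by
    apply hcl [Sum.inl (Sum.inl p)]
    · intro x hx
      rw [List.mem_singleton] at hx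
      rw [hx]; exact hp
    · exact Or.inr (Or.inl ⟨p, rfl, rfl⟩)
  obtain ⟨q, hq, hgen⟩ := hF N hN hNcl p.1 hpN
  refine ⟨⟨q, hq.trans p.2⟩, hq, ?_⟩
  intro D hD hdense r hr
  have hsN : Sum.inr (star D) ∈ N := by
    apply hcl [Sum.inl (Sum.inr D)]
    · intro x hx
      rw [List.mem_singleton] at hx
      rw [hx]; exact hD
    · exact Or.inr (Or.inr (Or.inl ⟨D, rfl, rfl⟩))
  have hsd : IsDenseSet (star D) := by
    intro a
    by_cases hc : ∃ r, r ≤ a ∧ r ≤ q₀
    · obtain ⟨b, hb1, hb2⟩ := hc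
      obtain ⟨d, hd, hdb⟩ := hdense ⟨b, hb2⟩
      exact ⟨d.1, Or.inl ⟨d.2, hd⟩, le_trans (show d.1 ≤ b from hdb) hb1⟩
    · exact ⟨a, Or.inr hc, le_rfl⟩
  obtain ⟨e, ⟨he, heN⟩, s, hs1, hs2⟩ := hgen _ hsN hsd r.1 hr
  rcases he with ⟨heq, heD⟩ | he
  · refine ⟨⟨e, heq⟩, ⟨heD, ?_⟩, ⟨s, hs2.trans heq⟩, hs1, hs2⟩
    apply hcl [Sum.inr (Sum.inl e)]
    · intro x hx
      rw [List.mem_singleton] at hx
      rw [hx]; exact heN
    · exact Or.inr (Or.inr (Or.inr ⟨⟨e, heq⟩, rfl, rfl⟩))
  · exact absurd ⟨s, hs2, hs1.trans r.2⟩ he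

end Pool.Agent.Lib.MP_b18e8e_lc_PFA
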