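import Pool.Agent.Lib.MP_b18e8e_lc_PFA.Model

/-!
# The closure operation
-/

set_option autoImplicit false

namespace Pool.Agent.Lib.MP_b18e8e_lc_PFA

open Cardinal

variable (R : Om → Om → Om → Prop)

/-- The structure in which the models are formed. -/
abbrev AA : Type := (Cnd R ⊕ Set (Cnd R)) ⊕ (Om ⊕ (Set (List Om) ⊕ Model))

variable {R}

/-- inclusion of conditions -/
def inP (p : Cnd R) : AA R := Sum.inl (Sum.inl p)
/-- inclusion of sets of conditions -/
def inD (D : Set (Cnd R)) : AA R := Sum.inl (Sum.inr D)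
/-- inclusion of ordinals -/
def inO (α : Om) : AA R := Sum.inr (Sum.inl α)
/-- inclusion of sets of sequences -/
def inS (Z : Set (List Om)) : AA R := Sum.inr (Sum.inr (Sum.inl Z))
/-- inclusion of models -/
def inM (N : Model) : AA R := Sum.inr (Sum.inr (Sum.inr N))

open Classical in
/-- bound of a bounded set -/
noncomputable def bnd (Z : Set (List Om)) : Om :=
  if h : ∃ β, ∀ y, [y] ∈ Z → y ≤ β then h.choose else Classical.arbitrary Om

theorem bnd_spec (Z : Set (List Om)) (h : ¬ Unb Z) : ∀ y, [y] ∈ Z → y ≤ bnd Z := by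
  have h' : ∃ β, ∀ y, [y] ∈ Z → y ≤ β := by
    unfold Unb at h
    push Not at h
    obtain ⟨β, hβ⟩ := h
    refine ⟨β, fun y hy => ?_⟩
    by_contra hcon
    exact hβ y (not_le.1 hcon) hy
  rw [bnd, dif_pos h']
  exact h'.choose_spec

open Classical in
/-- large elements of an unbounded set -/
noncomputable def up (Z : Set (List Om)) (α : Om) : Om :=
  if h : ∃ y, α < y ∧ [y] ∈ Z then h.choose else Classical.arbitrary Om

theorem up_spec (Z : Set (List Om)) (h : Unb Z) (α : Om) : α < up Z α ∧ [up Z α] ∈ Z := by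
  rw [up, dif_pos (h α)]
  exact (h α).choose_spec

open Classical in
/-- witnesses -/
noncomputable def wit (D : Set (Cnd R)) (r : Cnd R) (t : List Om) : Cnd R :=
  if h : t ∈ ZZ D r then h.choose else r

theorem wit_spec (D : Set (Cnd R)) (r : Cnd R) (t : List Om) (h : t ∈ ZZ D r) :
    wit D r t ∈ D ∧ wit D r t ≤ r ∧ (wit D r t).a = r.a ∪ {x | x ∈ t} := by
  rw [wit, dif_pos h]
  exact h.choose_spec

open Classical in
/-- bounds forced by a condition -/
noncomputable def bd (p : Cnd R) : Om :=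
  if h : ∃ β, ∀ s ≤ p, ∀ i ∈ s.a, i < β then h.choose else Classical.arbitrary Om

theorem bd_spec (p : Cnd R) (h : ∃ β, ∀ s ≤ p, ∀ i ∈ s.a, i < β) :
    ∀ s ≤ p, ∀ i ∈ s.a, i < bd p := by
  rw [bd, dif_pos h]
  exact h.choose_spec

/-- unary closure -/
noncomputable def C1 : AA R → Set (AA R)
  | Sum.inl (Sum.inl p) => (inO '' p.a) ∪ (inM '' p.N) ∪ {inO (bd p)}
  | Sum.inl (Sum.inr _) => ∅
  | Sum.inr (Sum.inl α) => inO '' Set.Iio α
  | Sum.inr (Sum.inr (Sum.inl Z)) => {inS (Qu Z), inO (bnd Z)} ∪ {x | ∃ N : Model, N.code = Z ∧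
      x = inM N}
  | Sum.inr (Sum.inr (Sum.inr N)) => {inS N.code, inO N.δ} ∪ inS '' N.S

/-- binary closure -/
noncomputable def C2 : AA R → AA R → Set (AA R)
  | Sum.inr (Sum.inr (Sum.inl Z)), Sum.inr (Sum.inl y) => {inS {t | y :: t ∈ Z}, inO (up Z y)}
  | Sum.inl (Sum.inr D), Sum.inl (Sum.inl r) => {inS (ZZ D r)}
  | _, _ => ∅

/-- short lists -/
noncomputable def CC : List (AA R) → Set (AA R)
  | [] => {inO (Classical.arbitrary Om), inS Set.univ}
  | [x] => C1 x
  | [x, y] => C2 x y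
  | _ => ∅

/-- all lists -/
noncomputable def GG (l : List (AA R)) : Set (AA R) :=
  {x | ∃ p : Cnd R, x = inP p ∧ (∀ α, α ∈ p.a ↔ inO α ∈ l) ∧ ∀ N, N ∈ p.N ↔ inM N ∈ l} ∪
  {x | ∃ (D : Set (Cnd R)) (r : Cnd R) (t : List Om), l = inD D :: inP r :: t.map inO ∧
    x = inP (wit D r t)}

/-- the closure operation -/
noncomputable def CF (l : List (AA R)) : Set (AA R) := CC l ∪ GG l

theorem inO_inj : Function.Injective (inO : Om → AA R) :=
  Sum.inr_injective.comp Sum.inl_injective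

theorem C1_countable (x : AA R) : (C1 x).Countable := by
  rcases x with (p | D) | (α | Z | N)
  · exact ((p.fa.countable.image _).union (p.fN.countable.image _)).union
      (Set.countable_singleton _)
  · exact Set.countable_empty
  · exact (countable_Iio α).image _
  · refine Set.Countable.union ?_ ?_
    · exact (Set.countable_singleton _).insert _
    · apply Set.Subsingleton.countable
      rintro x ⟨N, h1, rfl⟩ y ⟨N', h2, rfl⟩
      rw [Model.code_inj (h1.trans h2.symm)]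
  · exact ((Set.countable_singleton _).insert _).union (N.cS.image _)

theorem C2_countable (x y : AA R) : (C2 x y).Countable := by
  rcases x with (p | D) | (α | Z | N) <;> rcases y with (p' | D') | (α' | Z' | N') <;>
    simp only [C2, Set.countable_empty, Set.countable_singleton, Set.Countable.insert]

theorem CC_countable (l : List (AA R)) : (CC l).Countable := by
  match l with
  | [] => exact (Set.countable_singleton _).insert _
  | [x] => exact C1_countable x
  | [x, y] => exact C2_countable x y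
  | _ :: _ :: _ :: _ => exact Set.countable_empty

theorem GG_countable (l : List (AA R)) : (GG l).Countable := by
  refine Set.Countable.union ?_ ?_
  · apply Set.Subsingleton.countable
    rintro x ⟨p, rfl, h1, h2⟩ y ⟨p', rfl, h3, h4⟩
    congr 1
    apply Cnd.ext'
    · ext α
      rw [h1, h3]
    · ext N
      rw [h2, h4]
  · apply Set.Subsingleton.countable
    rintro x ⟨D, r, t, h1, rfl⟩ y ⟨D', r', t', h2, rfl⟩
    rw [h1] at h2
    simp only [List.cons.injEq, inD, inP, Sum.inl.injEq, Sum.inr.injEq] at h2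
    obtain ⟨rfl, rfl, h3⟩ := h2
    rw [List.map_injective_iff.2 inO_inj h3]

theorem CF_countable (l : List (AA R)) : (CF l).Countable :=
  (CC_countable l).union (GG_countable l)

/-- closed sets -/
structure Clo (M : Set (AA R)) : Prop where
  cM : M.Countable
  cl : ∀ l, (∀ x ∈ l, x ∈ M) → CF l ⊆ M

namespace Clo

variable {M : Set (AA R)} (hM : Clo M)

include hM

theorem c1 {x y : AA R} (hx : x ∈ M) (h : y ∈ C1 x) : y ∈ M := by
  apply hM.cl [x]
  · intro z hz
    rw [List.mem_singleton] at hz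
    rw [hz]; exact hx
  · exact Or.inl h

theorem c2 {x y z : AA R} (hx : x ∈ M) (hy : y ∈ M) (h : z ∈ C2 x y) : z ∈ M := by
  apply hM.cl [x, y]
  · intro z hz
    simp only [List.mem_cons, List.not_mem_nil, or_false] at hz
    rcases hz with rfl | rfl
    · exact hx
    · exact hy
  · exact Or.inl h

theorem arb : inO (Classical.arbitrary Om) ∈ M :=
  hM.cl [] (by simp) (Or.inl (Or.inl rfl))

theorem univ : inS Set.univ ∈ M :=
  hM.cl [] (by simp) (Or.inl (Or.inr rfl))

theorem down {α β : Om} (h : inO α ∈ M) (hβ : β < α) : inO β ∈ M :=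
  hM.c1 h ⟨β, hβ, rfl⟩

theorem qu {Z : Set (List Om)} (h : inS Z ∈ M) : inS (Qu Z) ∈ M :=
  hM.c1 h (Or.inl (Or.inl rfl))

theorem bnd' {Z : Set (List Om)} (h : inS Z ∈ M) : inO (bnd Z) ∈ M :=
  hM.c1 h (Or.inl (Or.inr rfl))

theorem ofCode {N : Model} (h : inS N.code ∈ M) : inM N ∈ M :=
  hM.c1 h (Or.inr ⟨N, rfl, rfl⟩)

theorem code {N : Model} (h : inM N ∈ M) : inS N.code ∈ M :=
  hM.c1 h (Or.inl (Or.inl rfl))

theorem hgt {N : Model} (h : inM N ∈ M) : inO N.δ ∈ M :=
  hM.c1 h (Or.inl (Or.inr rfl))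

theorem fam {N : Model} (h : inM N ∈ M) {Z : Set (List Om)} (hZ : Z ∈ N.S) : inS Z ∈ M :=
  hM.c1 h (Or.inr ⟨Z, hZ, rfl⟩)

theorem pa {p : Cnd R} (h : inP p ∈ M) {α : Om} (hα : α ∈ p.a) : inO α ∈ M :=
  hM.c1 h (Or.inl (Or.inl ⟨α, hα, rfl⟩))

theorem pN {p : Cnd R} (h : inP p ∈ M) {N : Model} (hN : N ∈ p.N) : inM N ∈ M :=
  hM.c1 h (Or.inl (Or.inr ⟨N, hN, rfl⟩))

theorem bd' {p : Cnd R} (h : inP p ∈ M) : inO (bd p) ∈ M :=
  hM.c1 h (Or.inr rfl)

theorem sec {Z : Set (List Om)} (h : inS Z ∈ M) {y : Om} (hy : inO y ∈ M) :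
    inS {t | y :: t ∈ Z} ∈ M :=
  hM.c2 h hy (Or.inl rfl)

theorem up' {Z : Set (List Om)} (h : inS Z ∈ M) {y : Om} (hy : inO y ∈ M) : inO (up Z y) ∈ M :=
  hM.c2 h hy (Or.inr rfl)

theorem zz {D : Set (Cnd R)} (h : inD D ∈ M) {r : Cnd R} (hr : inP r ∈ M) : inS (ZZ D r) ∈ M :=
  hM.c2 h hr rfl

theorem wt {D : Set (Cnd R)} (h : inD D ∈ M) {r : Cnd R} (hr : inP r ∈ M) {t : List Om}
    (ht : ∀ x ∈ t, inO x ∈ M) : inP (wit D r t) ∈ M := by
  apply hM.cl (inD D :: inP r :: t.map inO)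
  · intro z hz
    rcases List.mem_cons.1 hz with rfl | hz
    · exact h
    rcases List.mem_cons.1 hz with rfl | hz
    · exact hr
    obtain ⟨x, hx, rfl⟩ := List.mem_map.1 hz
    exact ht x hx
  · exact Or.inr (Or.inr ⟨D, r, t, rfl, rfl⟩)

theorem mk' {p : Cnd R} (h : ∀ α ∈ p.a, inO α ∈ M) (h' : ∀ N ∈ p.N, inM N ∈ M) : inP p ∈ M := by
  classical
  obtain ⟨l₁, hl₁⟩ : ∃ l : List Om, ∀ α, α ∈ l ↔ α ∈ p.a :=
    ⟨p.fa.toFinset.toList, by simp⟩
  obtain ⟨l₂, hl₂⟩ : ∃ l : List Model, ∀ α, α ∈ l ↔ α ∈ p.N :=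
    ⟨p.fN.toFinset.toList, by simp⟩
  apply hM.cl (l₁.map inO ++ l₂.map inM)
  · intro z hz
    rcases List.mem_append.1 hz with hz | hz
    · obtain ⟨x, hx, rfl⟩ := List.mem_map.1 hz
      exact h x ((hl₁ x).1 hx)
    · obtain ⟨x, hx, rfl⟩ := List.mem_map.1 hz
      exact h' x ((hl₂ x).1 hx)
  · refine Or.inr (Or.inl ⟨p, rfl, ?_, ?_⟩)
    · intro α
      rw [← hl₁]
      simp [inO, inM]
    · intro N
      rw [← hl₂]
      simp [inO, inM]

/-- the model of a closed set. -/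
theorem exists_model : ∃ N : Model, (∀ α, α < N.δ ↔ inO α ∈ M) ∧ ∀ Z, Z ∈ N.S ↔ inS Z ∈ M := by
  have hne : {α : Om | inO α ∉ M}.Nonempty := by
    by_contra hcon
    rw [Set.not_nonempty_iff_eq_empty] at hcon
    have h1 : ∀ α : Om, inO α ∈ M := by
      intro α
      by_contra h
      have : α ∈ {α : Om | inO α ∉ M} := h
      rw [hcon] at this
      exact this
    obtain ⟨j, hj⟩ := exists_bound {α : Om | inO α ∈ M} (hM.cM.preimage inO_inj)
    exact lt_irrefl j (hj j (h1 j))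
  obtain ⟨δ, hδ, hmin⟩ := WellFounded.has_min (wellFounded_lt (α := Om)) _ hne
  have hlt : ∀ α, α < δ ↔ inO α ∈ M := by
    intro α
    constructor
    · intro h
      by_contra hcon
      exact hmin α hcon h
    · intro h
      by_contra hcon
      push Not at hcon
      rcases hcon.eq_or_lt with rfl | hlt
      · exact hδ h
      · exact hδ (hM.down h hlt)
  refine ⟨⟨δ, {Z | inS Z ∈ M}, ?_, ⟨_, hM.univ⟩, ?_, ?_, ?_, ?_, ?_⟩, hlt, fun Z => Iff.rfl⟩
  · apply hM.cM.preimage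
    exact Sum.inr_injective.comp (Sum.inr_injective.comp Sum.inl_injective)
  · intro Z hZ y hy
    exact hM.sec hZ ((hlt y).1 hy)
  · intro Z hZ
    exact hM.qu hZ
  · intro Z hZ y hy hδy
    by_contra hcon
    have h1 := bnd_spec Z hcon y hy
    have h2 : bnd Z < δ := (hlt _).2 (hM.bnd' hZ)
    exact absurd (hδy.trans h1) (not_le.2 h2)
  · intro Z hZ hu α hα
    have h1 := up_spec Z hu α
    exact ⟨_, h1.1, (hlt _).2 (hM.up' hZ ((hlt _).1 hα)), h1.2⟩
  · exact ⟨_, (hlt _).2 hM.arb⟩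

end Clo

end Pool.Agent.Lib.MP_b18e8e_lc_PFA
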