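import Mathlib

/-!
# Proper posets and the Proper Forcing Axiom
-/

set_option autoImplicit false

namespace Pool.Agent.Lib.MP_b18e8e_lc_PFA

open Cardinal

/-- The well-ordered set of order type `ω₁`. -/
abbrev Om : Type := (ℵ₁ : Cardinal.{0}).ord.ToType

/-- `M` is closed under all the finitary functions `F n`. -/
def ClosedUnder {A : Type} (F : ℕ → List A → A) (M : Set A) : Prop :=
  ∀ (n : ℕ) (l : List A), (∀ x ∈ l, x ∈ M) → F n l ∈ M

/-- `D` is a dense subset of the poset `P`. -/
def IsDenseSet {P : Type} [Preorder P] (D : Set P) : Prop :=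
  ∀ p, ∃ d ∈ D, d ≤ p

/-- `E` is predense below `q`: every extension of `q` is compatible with an element of `E`. -/
def PredenseBelow {P : Type} [Preorder P] (E : Set P) (q : P) : Prop :=
  ∀ r ≤ q, ∃ e ∈ E, ∃ s, s ≤ r ∧ s ≤ e

/-- The poset `P` is proper: there are countably many finitary functions on the disjoint union of
`P` and its power set such that for every countable set `M` closed under them, every element `p`
of `P` in `M` has an `M`-generic extension `q`, that is, for every dense set `D` in `M` the set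
of the elements of `D` that lie in `M` is predense below `q`. -/
def Proper (P : Type) [Preorder P] : Prop :=
  ∃ F : ℕ → List (P ⊕ Set P) → P ⊕ Set P, ∀ M : Set (P ⊕ Set P), M.Countable → ClosedUnder F M →
    ∀ p : P, Sum.inl p ∈ M → ∃ q ≤ p, ∀ D : Set P, Sum.inr D ∈ M → IsDenseSet D →
      PredenseBelow {d | d ∈ D ∧ Sum.inl d ∈ M} q

/-- `F` is a filter in the poset `P`. -/
def IsFilterSet {P : Type} [Preorder P] (F : Set P) : Prop :=
  F.Nonempty ∧ (∀ p ∈ F, ∀ q, p ≤ q → q ∈ F) ∧ ∀ p ∈ F, ∀ q ∈ F, ∃ r ∈ F, r ≤ p ∧ r ≤ q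

/-- The Proper Forcing Axiom: for every nonempty proper poset and every family of `ℵ₁` dense sets
there is a filter that meets all of them. -/
def PFA : Prop :=
  ∀ (P : Type) [Preorder P], Nonempty P → Proper P → ∀ D : Om → Set P, (∀ i, IsDenseSet (D i)) →
    ∃ F : Set P, IsFilterSet F ∧ ∀ i, ∃ p ∈ F, p ∈ D i

end Pool.Agent.Lib.MP_b18e8e_lc_PFA
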