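import Pool.Agent.Lib.MP_b18e8e_lc_PFA.Closure

/-!
# Genericity of conditions containing the model
-/

set_option autoImplicit false

namespace Pool.Agent.Lib.MP_b18e8e_lc_PFA

open Cardinal

variable {R : Om → Om → Om → Prop}

theorem generic (hsym : ∀ i j k, R i j k → R j i k)
    (huniq : ∀ i j j' k, R i j k → R i j' k → j = j') {M : Set (AA R)} (hM : Clo M) (N : Model)
    (hδ : ∀ α, α < N.δ ↔ inO α ∈ M) (hS : ∀ Z, Z ∈ N.S ↔ inS Z ∈ M) (r : Cnd R) (hr : N ∈ r.N)
    (D : Set (Cnd R)) (hD : inD D ∈ M) (hdense : IsDenseSet D) :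
    ∃ e ∈ D, inP e ∈ M ∧ ∃ s, s ≤ r ∧ s ≤ e := by
  classical
  obtain ⟨r1, hr1D, hr1⟩ := hdense r
  have hN1 : N ∈ r1.N := hr1.2 hr
  have hltM : ∀ A : Model, inM A ∈ M → A.lt N := by
    intro A hA
    exact ⟨(hS _).2 (hM.code hA), fun Z hZ => (hS _).2 (hM.fam hA hZ), (hδ _).2 (hM.hgt hA)⟩
  let r0 : Cnd R :=
    { a := r1.a ∩ Set.Iio N.δ
      N := {A ∈ r1.N | A.lt N}
      fa := r1.fa.subset Set.inter_subset_left
      fN := r1.fN.subset fun A hA => hA.1
      free := fun i hi j hj k hk => r1.free i hi.1 j hj.1 k hk.1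
      chain := fun A hA B hB => r1.chain A hA.1 B hB.1
      sep := by
        intro i hi j hj hij
        obtain ⟨A, hA, h1, h2⟩ := r1.sep i hi.1 j hj.1 hij
        refine ⟨A, ⟨hA, ?_⟩, h1, h2⟩
        have h3 : A.δ < N.δ := lt_of_le_of_lt h2 hj.2
        rcases r1.chain A hA N hN1 with rfl | h | h
        · exact absurd h3 (lt_irrefl _)
        · exact h
        · exact absurd h.2.2 (not_lt.2 h3.le) }
  have hr0M : inP r0 ∈ M := by
    apply hM.mk'
    · intro α hα
      exact (hδ α).1 hα.2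
    · intro A hA
      exact hM.ofCode ((hS _).1 hA.2.1)
  have hfin : (r1.a \ Set.Iio N.δ).Finite := r1.fa.subset Set.sdiff_subset
  let t : List Om := hfin.toFinset.sort
  have htm : ∀ x, x ∈ t ↔ x ∈ r1.a ∧ N.δ ≤ x := by
    intro x
    simp [t]
  have htp : t.Pairwise (· < ·) := (Finset.sortedLT_sort _).pairwise
  have htZ : t ∈ ZZ D r0 := by
    refine ⟨r1, hr1D, ⟨Set.inter_subset_left, fun A hA => hA.1⟩, ?_⟩
    ext x
    simp only [Set.mem_union, Set.mem_ofPred_eq, htm]
    constructor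
    · intro hx
      rcases lt_or_ge x N.δ with h | h
      · exact Or.inl ⟨hx, h⟩
      · exact Or.inr ⟨hx, h⟩
    · rintro (h | h)
      · exact h.1
      · exact h.1
  have hZN : ZZ D r0 ∈ N.S := (hS _).2 (hM.zz hD hr0M)
  have hsep : ∀ s y u, t = s ++ y :: u → ∃ K : Model, N.S ⊆ K.S ∧ (∀ x ∈ s, x < K.δ) ∧
      K.δ ≤ y := by
    intro s y u hsu
    have hy : y ∈ t := by rw [hsu]; simp
    have hy' := (htm y).1 hy
    rcases List.eq_nil_or_concat s with rfl | ⟨s', z, rfl⟩
    · exact ⟨N, subset_rfl, by simp, hy'.2⟩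
    · rw [List.concat_eq_append] at hsu ⊢
      have hz : z ∈ t := by rw [hsu]; simp
      have hz' := (htm z).1 hz
      rw [hsu] at htp
      rw [List.pairwise_append] at htp
      have hzy : z < y := htp.2.2 z (by simp) y (by simp)
      have hsz : ∀ x ∈ s' ++ [z], x ≤ z := by
        intro x hx
        rcases List.mem_append.1 hx with hx | hx
        · have h5 := (List.pairwise_append.1 htp.1).2.2 x hx z (by simp)
          exact h5.le
        · rw [List.mem_singleton] at hx
          rw [hx]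
      obtain ⟨A, hA, h1, h2⟩ := r1.sep z hz'.1 y hy'.1 hzy
      have h3 : N.δ < A.δ := lt_of_le_of_lt hz'.2 h1
      refine ⟨A, ?_, fun x hx => lt_of_le_of_lt (hsz x hx) h1, h2⟩
      rcases r1.chain A hA N hN1 with rfl | h | h
      · exact absurd h3 (lt_irrefl _)
      · exact absurd h.2.2 (not_lt.2 h3.le)
      · exact h.2.1
  have h0 : ([] : List Om) ∈ QuI (ZZ D r0) t.length :=
    take_mem_quI N _ hZN t htZ hsep t.length [] t rfl rfl
  let Fb : List Om → Set Om := fun s => ⋃ k ∈ r1.a, ⋃ j ∈ r1.a ∪ {x | x ∈ s}, {m | R j m k}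
  have hFb : ∀ s, (Fb s).Finite := by
    intro s
    refine r1.fa.biUnion fun k _ => ?_
    refine (r1.fa.union (List.finite_toSet s)).biUnion fun j _ => ?_
    apply Set.Subsingleton.finite
    intro m hm m' hm'
    exact huniq _ _ _ _ hm hm'
  have hmF : ∀ s (y : Om), y ∉ Fb s → ∀ k ∈ r1.a, ∀ j, (j ∈ r1.a ∨ j ∈ s) → ¬ R j y k := by
    intro s y hy k hk j hj hR
    apply hy
    simp only [Fb, Set.mem_iUnion]
    exact ⟨k, hk, j, hj, hR⟩
  let I : List Om → Prop := fun s => ∀ m ∈ s, ∀ j, (j ∈ r1.a ∨ j ∈ s) → j ≠ m →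
    ∀ k ∈ r1.a, ¬ R j m k
  obtain ⟨t', ht'Z, ht'N, ht'I⟩ := exists_avoid N (ZZ D r0) hZN Fb hFb t.length [] (by simp) h0 I
    (by simp [I]) (by
      intro s y _ _ hI hy m hm j hj hjm k hk hR
      have hkey := hmF s y hy k hk
      rcases List.mem_append.1 hm with hm' | hm'
      · have : (j ∈ r1.a ∨ j ∈ s) ∨ j = y := by
          rcases hj with hj | hj
          · exact Or.inl (Or.inl hj)
          · rcases List.mem_append.1 hj with hj | hj
            · exact Or.inl (Or.inr hj)
            · exact Or.inr (List.mem_singleton.1 hj)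
        rcases this with h | rfl
        · exact hI m hm' j h hjm k hk hR
        · exact hkey m (Or.inr hm') (hsym _ _ _ hR)
      · rw [List.mem_singleton] at hm'
        subst hm'
        have : j ∈ r1.a ∨ j ∈ s := by
          rcases hj with hj | hj
          · exact Or.inl hj
          · rcases List.mem_append.1 hj with hj | hj
            · exact Or.inr hj
            · exact absurd (List.mem_singleton.1 hj) hjm
        exact hkey j this hR)
  obtain ⟨heD, her0, hea⟩ := wit_spec D r0 t' ht'Z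
  set e := wit D r0 t' with he
  have heM : inP e ∈ M := hM.wt hD hr0M fun x hx => (hδ x).1 (ht'N x hx)
  have heaN : ∀ x ∈ e.a, x < N.δ := fun x hx => (hδ x).2 (hM.pa heM hx)
  have hlow : ∀ x ∈ r1.a ∪ e.a, x < N.δ → x ∈ e.a := by
    rintro x (hx | hx) hxN
    · exact her0.1 ⟨hx, hxN⟩
    · exact hx
  have hsplit : ∀ x ∈ r1.a ∪ e.a, x ∈ r1.a ∨ x ∈ t' := by
    rintro x (hx | hx)
    · exact Or.inl hx
    · rw [hea] at hx
      rcases hx with hx | hx
      · exact Or.inl hx.1
      · exact Or.inr hx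
  refine ⟨e, heD, heM, ⟨r1.a ∪ e.a, r1.N ∪ e.N, r1.fa.union e.fa, r1.fN.union e.fN, ?_, ?_, ?_⟩,
    ⟨hr1.1.trans Set.subset_union_left, hr1.2.trans Set.subset_union_left⟩,
    ⟨Set.subset_union_right, Set.subset_union_right⟩⟩
  · intro i hi j hj k hk hik hjk hij hR
    rcases lt_or_ge k N.δ with hkN | hkN
    · exact e.free i (hlow i hi (hik.trans hkN)) j (hlow j hj (hjk.trans hkN)) k
        (hlow k hk hkN) hik hjk hij hR
    · have hk1 : k ∈ r1.a := by
        rcases hk with hk | hk
        · exact hk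
        · exact absurd (heaN k hk) (not_lt.2 hkN)
      rcases hsplit j hj with hj1 | hj1
      · rcases hsplit i hi with hi1 | hi1
        · exact r1.free i hi1 j hj1 k hk1 hik hjk hij hR
        · exact ht'I i hi1 j (Or.inl hj1) hij.symm k hk1 (hsym _ _ _ hR)
      · exact ht'I j hj1 i (hsplit i hi) hij k hk1 hR
  · have key : ∀ A ∈ r1.N, ∀ B ∈ e.N, A = B ∨ A.lt B ∨ B.lt A := by
      intro A hA B hB
      have hBN : B.lt N := hltM B (hM.pN heM hB)
      rcases r1.chain A hA N hN1 with rfl | h | h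
      · exact Or.inr (Or.inr hBN)
      · exact e.chain A (her0.2 ⟨hA, h⟩) B hB
      · exact Or.inr (Or.inr (Model.lt_trans hBN h))
    rintro A (hA | hA) B (hB | hB)
    · exact r1.chain A hA B hB
    · exact key A hA B hB
    · rcases key B hB A hA with h | h | h
      · exact Or.inl h.symm
      · exact Or.inr (Or.inr h)
      · exact Or.inr (Or.inl h)
    · exact e.chain A hA B hB
  · intro i hi j hj hij
    rcases lt_or_ge j N.δ with hjN | hjN
    · obtain ⟨A, hA, h⟩ := e.sep i (hlow i hi (hij.trans hjN)) j (hlow j hj hjN) hij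
      exact ⟨A, Or.inr hA, h⟩
    · have hj1 : j ∈ r1.a := by
        rcases hj with hj | hj
        · exact hj
        · exact absurd (heaN j hj) (not_lt.2 hjN)
      rcases lt_or_ge i N.δ with hiN | hiN
      · exact ⟨N, Or.inl hN1, hiN, hjN⟩
      · have hi1 : i ∈ r1.a := by
          rcases hi with hi | hi
          · exact hi
          · exact absurd (heaN i hi) (not_lt.2 hiN)
        obtain ⟨A, hA, h⟩ := r1.sep i hi1 j hj1 hij
        exact ⟨A, Or.inl hA, h⟩

/-- The poset of conditions is proper. -/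
theorem proper_Cnd (hsym : ∀ i j k, R i j k → R j i k)
    (huniq : ∀ i j j' k, R i j k → R i j' k → j = j') : Proper (Cnd R) := by
  refine proper_of_big (B := Om ⊕ (Set (List Om) ⊕ Model)) CF CF_countable ?_
  intro M hMc hMcl p hp
  have hM : Clo M := ⟨hMc, hMcl⟩
  obtain ⟨N, hδ, hS⟩ := hM.exists_model
  have hltM : ∀ A : Model, inM A ∈ M → A.lt N := by
    intro A hA
    exact ⟨(hS _).2 (hM.code hA), fun Z hZ => (hS _).2 (hM.fam hA hZ), (hδ _).2 (hM.hgt hA)⟩
  have hpM : inP p ∈ M := hp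
  let q : Cnd R :=
    { a := p.a
      N := insert N p.N
      fa := p.fa
      fN := p.fN.insert N
      free := p.free
      chain := by
        rintro A (rfl | hA) B (rfl | hB)
        · exact Or.inl rfl
        · exact Or.inr (Or.inr (hltM B (hM.pN hpM hB)))
        · exact Or.inr (Or.inl (hltM A (hM.pN hpM hA)))
        · exact p.chain A hA B hB
      sep := by
        intro i hi j hj hij
        obtain ⟨A, hA, h⟩ := p.sep i hi j hj hij
        exact ⟨A, Set.mem_insert_of_mem _ hA, h⟩ }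
  refine ⟨q, ⟨subset_rfl, Set.subset_insert _ _⟩, ?_⟩
  intro D hD hdense r hr
  obtain ⟨e, h1, h2, h3⟩ := generic hsym huniq hM N hδ hS r (hr.2 (Set.mem_insert _ _)) D hD hdense
  exact ⟨e, ⟨h1, h2⟩, h3⟩

/-- Some condition forces the generic set to be unbounded. -/
theorem exists_unbounded (hsym : ∀ i j k, R i j k → R j i k)
    (huniq : ∀ i j j' k, R i j k → R i j' k → j = j') :
    ∃ q : Cnd R, ∀ r ≤ q, ∀ β : Om, ∃ s ≤ r, ∃ i ∈ s.a, β ≤ i := by
  by_contra hcon
  push Not at hcon
  let E : Set (Cnd R) := {r | ∃ β, ∀ s ≤ r, ∀ i ∈ s.a, i < β}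
  have hE : IsDenseSet E := by
    intro q
    obtain ⟨r, hr, β, hβ⟩ := hcon q
    exact ⟨r, ⟨β, hβ⟩, hr⟩
  let M : Set (AA R) := {x | Cl CF {inD E} x}
  have hM : Clo M := by
    refine ⟨cl_countable CF CF_countable _ (Set.countable_singleton _), ?_⟩
    intro l hl y hy
    exact Cl.step l y hl hy
  obtain ⟨N, hδ, hS⟩ := hM.exists_model
  let q : Cnd R :=
    { a := {N.δ}
      N := {N}
      fa := Set.finite_singleton _
      fN := Set.finite_singleton _
      free := by
        rintro i rfl j rfl k rfl h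
        exact absurd h (lt_irrefl _)
      chain := by
        rintro A rfl B rfl
        exact Or.inl rfl
      sep := by
        rintro i rfl j rfl h
        exact absurd h (lt_irrefl _) }
  obtain ⟨e, heE, heM, s, hsq, hse⟩ := generic hsym huniq hM N hδ hS q rfl E
    (Cl.base _ rfl) hE
  have h1 : N.δ < bd e := bd_spec e heE s hse _ (hsq.1 rfl)
  have h2 : bd e < N.δ := (hδ _).2 (hM.bd' heM)
  exact absurd (h1.trans h2) (lt_irrefl _)

end Pool.Agent.Lib.MP_b18e8e_lc_PFA
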