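import Pool.Agent.Lib.MP_b18e8e_lc_PFA.Generic
import Pool.Agent.Lib.MP_b18e8e_lc.Defs

/-!
# Groups of cardinality `ℵ₁` and proper forcing
-/

set_option autoImplicit false

namespace Pool.Agent.Lib.MP_b18e8e_lc_PFA

open Cardinal MP_b18e8e_lc

/-- An unbounded subset of `ω₁` has cardinality `ℵ₁`. -/
theorem mk_of_unbounded (H : Set Om) (hH : ∀ β, ∃ i ∈ H, β ≤ i) : #H = ℵ₁ := by
  apply le_antisymm
  · rw [← mk_Om]
    exact Cardinal.mk_set_le H
  · by_contra hcon
    push Not at hcon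
    have h1 : #H ≤ ℵ₀ := by
      rw [← Cardinal.succ_aleph0] at hcon
      exact Order.lt_succ_iff.1 hcon
    obtain ⟨j, hj⟩ := exists_bound H (Cardinal.le_aleph0_iff_set_countable.1 h1)
    obtain ⟨i, hi, hji⟩ := hH j
    exact absurd (hj i hi) (not_lt.2 hji)

/-- The free set read off from a filter. -/
theorem free_of_filter {R : Om → Om → Om → Prop} {q : Cnd R} (F : Set {p : Cnd R // p ≤ q})
    (hF : IsFilterSet F) (hm : ∀ β : Om, ∃ p ∈ F, ∃ i ∈ p.1.a, β ≤ i) :
    ∃ H : Set Om, (∀ β, ∃ i ∈ H, β ≤ i) ∧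
      ∀ i ∈ H, ∀ j ∈ H, ∀ k ∈ H, i < k → j < k → i ≠ j → ¬ R i j k := by
  refine ⟨{i | ∃ p ∈ F, i ∈ p.1.a}, ?_, ?_⟩
  · intro β
    obtain ⟨p, hp, i, hi, hβ⟩ := hm β
    exact ⟨i, ⟨p, hp, hi⟩, hβ⟩
  · rintro i ⟨p₁, hp₁, hi⟩ j ⟨p₂, hp₂, hj⟩ k ⟨p₃, hp₃, hk⟩ hik hjk hij
    obtain ⟨r, hr, h1, h2⟩ := hF.2.2 p₁ hp₁ p₂ hp₂
    obtain ⟨s, hs, h3, h4⟩ := hF.2.2 r hr p₃ hp₃
    exact s.1.free i ((h1.1.trans h3.1) hi) j ((h2.1.trans h3.1) hj) k (h4.1 hk) hik hjk hij

/-- A sequence of elements outside the subgroups generated by the earlier ones. -/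
theorem exists_seq (G : Type) [Group G] (hG : #G = ℵ₁) :
    ∃ g : Om → G, ∀ k, g k ∉ Subgroup.closure (g '' Set.Iio k) := by
  have key : ∀ T : Set G, T.Countable → ∃ x, x ∉ Subgroup.closure T := by
    intro T hT
    by_contra hcon
    push Not at hcon
    have h1 : (Subgroup.closure T : Set G).Countable := by
      have := hT.to_subtype
      have h2 : (Subgroup.closure T : Set G) =
          Set.range (FreeGroup.lift (Subtype.val : T → G)) := by
        have h3 := FreeGroup.range_lift_eq_closure (f := (Subtype.val : T → G))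
        rw [Subtype.range_coe] at h3
        rw [← h3]
        rfl
      rw [h2]
      exact Set.countable_range _
    have h2 : (Set.univ : Set G).Countable := by
      convert h1
      ext x
      simpa using hcon x
    have h3 : #G ≤ ℵ₀ := Cardinal.mk_le_aleph0_iff.2 (Set.countable_univ_iff.1 h2)
    rw [hG] at h3
    exact absurd h3 (not_le.2 Cardinal.aleph0_lt_aleph_one)
  classical
  choose f hf using key
  let g : Om → G := (wellFounded_lt (α := Om)).fix fun k ih =>
    f (Set.range fun i : Set.Iio k => ih i.1 i.2)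
      (by
        have := (countable_Iio k).to_subtype
        exact Set.countable_range _)
  refine ⟨g, ?_⟩
  intro k
  have h1 : g k = f (Set.range fun i : Set.Iio k => g i.1)
      (by
        have := (countable_Iio k).to_subtype
        exact Set.countable_range _) := by
    exact WellFounded.fix_eq _ _ _
  rw [h1]
  have h2 : g '' Set.Iio k = Set.range fun i : Set.Iio k => g i.1 := by
    rw [Set.image_eq_range]
  rw [h2]
  exact hf _ _

/-- Free sets give good subsets. -/
theorem good_of_free (G : Type) [Group G] (g : Om → G)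
    (hg : ∀ k, g k ∉ Subgroup.closure (g '' Set.Iio k)) (H : Set Om)
    (hH : ∀ i ∈ H, ∀ j ∈ H, ∀ k ∈ H, i < k → j < k → i ≠ j → ¬ g j = g k * (g i)⁻¹ * g k) :
    IsGood (g '' H) := by
  have hmem : ∀ i k, i < k → g i ∈ Subgroup.closure (g '' Set.Iio k) := fun i k h =>
    Subgroup.subset_closure ⟨i, h, rfl⟩
  rintro _ ⟨i, hi, rfl⟩ _ ⟨k, hk, rfl⟩ _ ⟨j, hj, rfl⟩ h
  have h1 : g j = g k * (g i)⁻¹ * g k := by
    rw [mul_assoc, h]; group
  have h2 : g i = g k * (g j)⁻¹ * g k := by
    rw [h1]; group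
  by_contra hne
  have hij : i ≠ j := fun h => hne (by rw [h])
  have key : ∀ i j, i < j → g j = g k * (g i)⁻¹ * g k → j < k := by
    intro i j hij h1
    by_contra hcon
    push Not at hcon
    rcases hcon.eq_or_lt with rfl | hlt
    · have h3 : g k = g i := by
        have : g k * ((g i)⁻¹ * g k) = g k * 1 := by rw [← mul_assoc, ← h1, mul_one]
        have h4 := mul_left_cancel this
        rw [inv_mul_eq_one] at h4
        exact h4.symm
      apply hg k
      rw [h3]
      exact hmem i k hij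
    · apply hg j
      rw [h1]
      exact Subgroup.mul_mem _ (Subgroup.mul_mem _ (hmem k j hlt)
        (Subgroup.inv_mem _ (hmem i j hij))) (hmem k j hlt)
  rcases lt_or_gt_of_ne hij with hlt | hlt
  · have h3 := key i j hlt h1
    exact hH i hi j hj k hk (hlt.trans h3) h3 hij h1
  · have h3 := key j i hlt h2
    exact hH i hi j hj k hk h3 (hlt.trans h3) hij h1

theorem seq_injective (G : Type) [Group G] (g : Om → G)
    (hg : ∀ k, g k ∉ Subgroup.closure (g '' Set.Iio k)) : Function.Injective g := by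
  intro i j h
  by_contra hne
  rcases lt_or_gt_of_ne hne with hlt | hlt
  · apply hg j
    rw [← h]
    exact Subgroup.subset_closure ⟨i, hlt, rfl⟩
  · apply hg i
    rw [h]
    exact Subgroup.subset_closure ⟨j, hlt, rfl⟩

/-- Every group of cardinality `ℵ₁` gets a good subset of cardinality `ℵ₁` by proper forcing. -/
theorem exists_proper (G : Type) [Group G] (hG : #G = ℵ₁) :
    ∃ (P : Type) (_ : Preorder P), Nonempty P ∧ Proper P ∧ ∃ D : Om → Set P,
      (∀ i, IsDenseSet (D i)) ∧ ∀ F : Set P, IsFilterSet F → (∀ i, ∃ p ∈ F, p ∈ D i) →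
        ∃ H : Set G, IsGood H ∧ #H = ℵ₁ := by
  obtain ⟨g, hg⟩ := exists_seq G hG
  have hinj := seq_injective G g hg
  let R : Om → Om → Om → Prop := fun i j k => g j = g k * (g i)⁻¹ * g k
  have hsym : ∀ i j k, R i j k → R j i k := by
    intro i j k h
    change g i = g k * (g j)⁻¹ * g k
    rw [show g j = g k * (g i)⁻¹ * g k from h]; group
  have huniq : ∀ i j j' k, R i j k → R i j' k → j = j' := by
    intro i j j' k h h'
    exact hinj (h.trans h'.symm)
  obtain ⟨q, hq⟩ := exists_unbounded hsym huniq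
  refine ⟨{p : Cnd R // p ≤ q}, inferInstance, ⟨⟨q, le_rfl⟩⟩,
    proper_below (proper_Cnd hsym huniq) q, fun β => {p | ∃ i ∈ p.1.a, β ≤ i}, ?_, ?_⟩
  · rintro β ⟨r, hr⟩
    obtain ⟨s, hs, i, hi, hβ⟩ := hq r hr β
    exact ⟨⟨s, hs.trans hr⟩, ⟨i, hi, hβ⟩, hs⟩
  · intro F hF hm
    obtain ⟨H, hH, hfree⟩ := free_of_filter F hF hm
    refine ⟨g '' H, good_of_free G g hg H hfree, ?_⟩
    rw [Cardinal.mk_image_eq hinj]
    exact mk_of_unbounded H hH

/-- The Proper Forcing Axiom implies that there is no strange group of cardinality `ℵ₁`. -/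
theorem not_existsStrange_of_PFA (h : PFA) : ¬ ExistsStrange (ℵ₁ : Cardinal.{0}) := by
  rintro ⟨G, _, hG, hstr⟩
  obtain ⟨P, _, hne, hP, D, hD, hF⟩ := exists_proper G hG
  obtain ⟨F, hF1, hF2⟩ := h P hne hP D hD
  obtain ⟨H, h1, h2⟩ := hF F hF1 hF2
  exact hstr H h1 h2

end Pool.Agent.Lib.MP_b18e8e_lc_PFA
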