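import Pool.Agent.Lib.MP_b18e8e_lc_PFA.Big

/-!
# Side conditions
-/

set_option autoImplicit false

namespace Pool.Agent.Lib.MP_b18e8e_lc_PFA

open Cardinal

theorem mk_Om : #Om = ℵ₁ := by simp

instance : Infinite Om := by
  rw [Cardinal.infinite_iff, mk_Om]
  exact Cardinal.aleph0_le_aleph 1

theorem countable_Iio (i : Om) : (Set.Iio i).Countable := by
  have h : #(Set.Iio i) < #Om := Cardinal.mk_Iio_lt i (by simp)
  rw [mk_Om] at h
  rw [← Set.countable_coe_iff, ← Cardinal.mk_le_aleph0_iff]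
  have h' : #(Set.Iio i) < Order.succ ℵ₀ := by
    rw [Cardinal.succ_aleph0]; exact h
  exact Order.lt_succ_iff.1 h'

theorem countable_Iic (i : Om) : (Set.Iic i).Countable := by
  rw [← Set.Iio_insert]
  exact (countable_Iio i).insert i

theorem exists_bound (B : Set Om) (hB : B.Countable) : ∃ j, ∀ x ∈ B, x < j := by
  by_contra hcon
  push Not at hcon
  have h1 : (Set.univ : Set Om) = ⋃ x ∈ B, Set.Iic x := by
    ext j
    simp only [Set.mem_univ, Set.mem_iUnion, Set.mem_Iic, true_iff]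
    obtain ⟨x, hx, hxj⟩ := hcon j
    exact ⟨x, hx, hxj⟩
  have h2 : (Set.univ : Set Om).Countable := by
    rw [h1]
    exact hB.biUnion fun x _ => countable_Iic x
  have h3 : Countable Om := Set.countable_univ_iff.1 h2
  have h4 : #Om ≤ ℵ₀ := Cardinal.mk_le_aleph0_iff.2 h3
  rw [mk_Om] at h4
  exact absurd h4 (not_le.2 Cardinal.aleph0_lt_aleph_one)

/-- unboundedly many one-element lists lie in `Z`. -/
def Unb (Z : Set (List Om)) : Prop := ∀ β : Om, ∃ y, β < y ∧ [y] ∈ Z

/-- the lists with unboundedly many one-point extensions in `Z`. -/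
def Qu (Z : Set (List Om)) : Set (List Om) := {s | ∀ β : Om, ∃ y, β < y ∧ s ++ [y] ∈ Z}

/-- The side conditions: countable families of sets of finite sequences with closure
properties. -/
structure Model where
  /-- the height -/
  δ : Om
  /-- the family -/
  S : Set (Set (List Om))
  cS : S.Countable
  neS : S.Nonempty
  sec : ∀ Z ∈ S, ∀ y < δ, {t | y :: t ∈ Z} ∈ S
  qu : ∀ Z ∈ S, Qu Z ∈ S
  bdd : ∀ Z ∈ S, ∀ y, [y] ∈ Z → δ ≤ y → Unb Z
  unb : ∀ Z ∈ S, Unb Z → ∀ α < δ, ∃ y, α < y ∧ y < δ ∧ [y] ∈ Z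
  pos : ∃ α, α < δ

theorem Model.secs (N : Model) (s : List Om) (hs : ∀ x ∈ s, x < N.δ) (Z : Set (List Om))
    (hZ : Z ∈ N.S) : {u | s ++ u ∈ Z} ∈ N.S := by
  induction s generalizing Z with
  | nil => simpa using hZ
  | cons y s ih =>
    have h1 := N.sec Z hZ y (hs y List.mem_cons_self)
    exact ih (fun x hx => hs x (List.mem_cons_of_mem _ hx)) _ h1

/-- an embedding of the natural numbers -/
noncomputable def iot : ℕ → Om := Infinite.natEmbedding Om

theorem iot_inj : Function.Injective iot := (Infinite.natEmbedding Om).injective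

/-- an enumeration of the family of a model. -/
noncomputable def Model.enum (N : Model) : ℕ → Set (List Om) :=
  (N.cS.exists_eq_range N.neS).choose

theorem Model.enum_spec (N : Model) : N.S = Set.range N.enum :=
  (N.cS.exists_eq_range N.neS).choose_spec

/-- the code of a model. -/
noncomputable def Model.code (N : Model) : Set (List Om) :=
  {l | l = [N.δ] ∨ ∃ n, ∃ t ∈ N.enum n, l = iot n :: iot 0 :: t}

theorem Model.code_inj {N N' : Model} (h : N.code = N'.code) : N = N' := by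
  have h1 : N.δ = N'.δ := by
    have : [N.δ] ∈ N'.code := by rw [← h]; exact Or.inl rfl
    rcases this with h2 | ⟨n, t, ht, h2⟩
    · simpa using h2
    · simp at h2
  have h2 : N.enum = N'.enum := by
    funext n
    ext t
    have key : ∀ (K : Model), iot n :: iot 0 :: t ∈ K.code ↔ t ∈ K.enum n := by
      intro K
      constructor
      · rintro (h2 | ⟨n', t', ht, h2⟩)
        · simp at h2
        · simp only [List.cons.injEq] at h2
          rw [iot_inj h2.1, h2.2.2]
          exact ht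
      · intro ht
        exact Or.inr ⟨n, t, ht, rfl⟩
    rw [← key N, ← key N', h]
  have h3 : N.S = N'.S := by rw [N.enum_spec, N'.enum_spec, h2]
  cases N
  cases N'
  simp only [Model.mk.injEq]
  exact ⟨h1, h3⟩

/-- the chain relation between models. -/
def Model.lt (N' N : Model) : Prop := N'.code ∈ N.S ∧ N'.S ⊆ N.S ∧ N'.δ < N.δ

theorem Model.lt_trans {A B C : Model} (h : A.lt B) (h' : B.lt C) : A.lt C :=
  ⟨h'.2.1 h.1, h.2.1.trans h'.2.1, h.2.2.trans h'.2.2⟩

/-- The conditions: finite free sets with finite chains of models separating them. -/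
structure Cnd (R : Om → Om → Om → Prop) where
  /-- the working part -/
  a : Set Om
  /-- the side condition -/
  N : Set Model
  fa : a.Finite
  fN : N.Finite
  free : ∀ i ∈ a, ∀ j ∈ a, ∀ k ∈ a, i < k → j < k → i ≠ j → ¬ R i j k
  chain : ∀ A ∈ N, ∀ B ∈ N, A = B ∨ A.lt B ∨ B.lt A
  sep : ∀ i ∈ a, ∀ j ∈ a, i < j → ∃ A ∈ N, i < A.δ ∧ A.δ ≤ j

variable {R : Om → Om → Om → Prop}

theorem Cnd.ext' {p q : Cnd R} (h : p.a = q.a) (h' : p.N = q.N) : p = q := by
  cases p
  cases q
  simp only [Cnd.mk.injEq]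
  exact ⟨h, h'⟩

instance : Preorder (Cnd R) where
  le p q := q.a ⊆ p.a ∧ q.N ⊆ p.N
  le_refl p := ⟨subset_rfl, subset_rfl⟩
  le_trans p q r h h' := ⟨h'.1.trans h.1, h'.2.trans h.2⟩

theorem Cnd.le_def {p q : Cnd R} : p ≤ q ↔ q.a ⊆ p.a ∧ q.N ⊆ p.N := Iff.rfl

/-- the set of the sequences coding the elements of `D` below `r`. -/
def ZZ (D : Set (Cnd R)) (r : Cnd R) : Set (List Om) :=
  {t | ∃ e ∈ D, e ≤ r ∧ e.a = r.a ∪ {x | x ∈ t}}

/-- `Z` iterated. -/
def QuI (Z : Set (List Om)) : ℕ → Set (List Om)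
  | 0 => Z
  | n + 1 => Qu (QuI Z n)

theorem Model.quI (N : Model) (Z : Set (List Om)) (hZ : Z ∈ N.S) (n : ℕ) : QuI Z n ∈ N.S := by
  induction n with
  | zero => exact hZ
  | succ n ih => exact N.qu _ ih

/-- the tree argument, going down. -/
theorem take_mem_quI (M : Model) (Z : Set (List Om)) (hZ : Z ∈ M.S) (t : List Om) (ht : t ∈ Z)
    (hsep : ∀ s y u, t = s ++ y :: u → ∃ N : Model, M.S ⊆ N.S ∧ (∀ x ∈ s, x < N.δ) ∧ N.δ ≤ y)
    (m : ℕ) (s u : List Om) (hsu : t = s ++ u) (hm : u.length = m) : s ∈ QuI Z m := by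
  induction m generalizing s u with
  | zero =>
    rw [List.length_eq_zero_iff] at hm
    rw [hm, List.append_nil] at hsu
    rw [← hsu]
    exact ht
  | succ m ih =>
    obtain ⟨y, u', rfl⟩ : ∃ y u', u = y :: u' := by
      cases u with
      | nil => simp at hm
      | cons y u' => exact ⟨y, u', rfl⟩
    have h1 : s ++ [y] ∈ QuI Z m := by
      apply ih (s ++ [y]) u' (by simp [hsu])
      simpa using hm
    obtain ⟨N, hMN, hs, hy⟩ := hsep s y u' hsu
    have h2 : {v | s ++ v ∈ QuI Z m} ∈ N.S := N.secs s hs _ (hMN (M.quI Z hZ m))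
    exact N.bdd _ h2 y h1 hy

/-- the tree argument, going up. -/
theorem exists_avoid (M : Model) (Z : Set (List Om)) (hZ : Z ∈ M.S)
    (Fb : List Om → Set Om) (hFb : ∀ s, (Fb s).Finite) (m : ℕ) (s : List Om)
    (hs : ∀ x ∈ s, x < M.δ) (hsZ : s ∈ QuI Z m) (I : List Om → Prop) (hI : I s)
    (hstep : ∀ s y, (∀ x ∈ s, x < M.δ) → y < M.δ → I s → y ∉ Fb s → I (s ++ [y])) :
    ∃ t ∈ Z, (∀ x ∈ t, x < M.δ) ∧ I t := by
  induction m generalizing s with
  | zero => exact ⟨s, hsZ, hs, hI⟩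
  | succ m ih =>
    have h2 : {v | s ++ v ∈ QuI Z m} ∈ M.S := M.secs s hs _ (M.quI Z hZ m)
    have h3 : Unb {v | s ++ v ∈ QuI Z m} := hsZ
    obtain ⟨α, hα⟩ := M.pos
    obtain ⟨b, hb, hbmax⟩ : ∃ b < M.δ, ∀ x ∈ Fb s, x < M.δ → x ≤ b := by
      have hfin : (insert α (Fb s ∩ Set.Iio M.δ)).Finite :=
        ((hFb s).subset Set.inter_subset_left).insert α
      obtain ⟨b, hb, hmax⟩ := hfin.exists_maximal ⟨α, Set.mem_insert _ _⟩
      refine ⟨b, ?_, ?_⟩
      · rcases hb with rfl | hb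
        · exact hα
        · exact hb.2
      · intro x hx hxδ
        by_contra hcon
        push Not at hcon
        exact absurd (hmax (Set.mem_insert_of_mem _ ⟨hx, hxδ⟩) hcon.le) (not_le.2 hcon)
    obtain ⟨y, hby, hyδ, hy⟩ := M.unb _ h2 h3 b hb
    have hyF : y ∉ Fb s := fun h => absurd (hbmax y h hyδ) (not_le.2 hby)
    apply ih (s ++ [y])
    · intro x hx
      rcases List.mem_append.1 hx with hx | hx
      · exact hs x hx
      · rw [List.mem_singleton] at hx
        rw [hx]; exact hyδ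
    · exact hy
    · exact hstep s y hs hyδ hI hyF

end Pool.Agent.Lib.MP_b18e8e_lc_PFA
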