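import Pool.Agent.Lib.MP_b18e8e_lc_PFA.Main

/-!
# The Proper Forcing Axiom and groups of cardinality `ℵ₁`
-/

set_option autoImplicit false

namespace Pool.Agent.Lib.MP_b18e8e_lc_PFA.Result1

open Cardinal Pool.Agent.Lib.MP_b18e8e_lc Pool.Agent.Lib.MP_b18e8e_lc_PFA

/-- Under the Proper Forcing Axiom there is no strange group of cardinality `ℵ₁`: every group of
cardinality `ℵ₁` has a good subset of cardinality `ℵ₁`. -/
theorem result : PFA → ¬ ExistsStrange (ℵ₁ : Cardinal.{0}) :=
  not_existsStrange_of_PFA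

end Pool.Agent.Lib.MP_b18e8e_lc_PFA.Result1
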